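import Mathlib

set_option autoImplicit false

namespace Pool.Agent.H.MP_48a29b_ag

/-- The `m`-th symbolic power: the intersection over the minimal primes `P` of `I` of `I ^ m R_P ∩ R`. -/
noncomputable def symb {R : Type} [CommRing R] (I : Ideal R) (m : ℕ) : Ideal R :=
  ⨅ (P : PrimeSpectrum R) (_ : P.asIdeal ∈ I.minimalPrimes),
    ((I ^ m).map (algebraMap R (Localization.AtPrime P.asIdeal))).comap (algebraMap R (Localization.AtPrime P.asIdeal))

end Pool.Agent.H.MP_48a29b_ag
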